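import Mathlib
import Pool.Agent.Lib.helper9.ConstWidth

set_option autoImplicit false

namespace Pool.Agent.Results.MP_04ec84_gt.Value

open RealInnerProductSpace

abbrev E (d : ℕ) := EuclideanSpace ℝ (Fin d)

/-- constant width one -/
def CW {d : ℕ} (K : Set (E d)) : Prop :=
  IsCompact K ∧ Convex ℝ K ∧
    ∀ u : E d, ‖u‖ = 1 → sSup ((fun x => ⟪u, x⟫) '' K) - sInf ((fun x => ⟪u, x⟫) '' K) = 1

/-- midpoints of diametral chords -/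
def Mid {d : ℕ} (K : Set (E d)) : Set (E d) :=
  {m | ∃ x ∈ K, ∃ y ∈ K, ‖x - y‖ = 1 ∧ m = (1 / 2 : ℝ) • (x + y)}

theorem diam_le {d : ℕ} {K : Set (E d)} (h : CW K) : ∀ x ∈ K, ∀ y ∈ K, ‖x - y‖ ≤ 1 := by
  intro x hx y hy
  rcases eq_or_ne (x - y) 0 with e | e
  · simp [e]
  have p := norm_pos_iff.2 e
  have c := h.1.image (f := fun z => ⟪‖x - y‖⁻¹ • (x - y), z⟫) (by fun_prop)
  have a := h.2.2 _ (norm_smul_inv_norm (𝕜 := ℝ) e)
  have a1 := le_csSup c.bddAbove ⟨x, hx, rfl⟩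
  have a2 := csInf_le c.bddBelow ⟨y, hy, rfl⟩
  have : ⟪‖x - y‖⁻¹ • (x - y), x⟫ - ⟪‖x - y‖⁻¹ • (x - y), y⟫ = ‖x - y‖ := by
    rw [← inner_sub_right, real_inner_smul_left, real_inner_self_eq_norm_sq]
    field_simp
  simp only [RCLike.ofReal_real_eq_id, id] at a
  linarith

theorem exists_cw {d : ℕ} (S : Set (E d)) (hne : S.Nonempty)
    (hS : ∀ x ∈ S, ∀ y ∈ S, ‖x - y‖ ≤ 1) : ∃ K, S ⊆ K ∧ CW K := by
  obtain ⟨K, h1, h2, h3, h4, h5⟩ := Pool.Agent.Lib.helper9.ConstWidth.exists_complete S hne hS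
  refine ⟨K, h1, h2, h3, fun u hu => ?_⟩
  obtain ⟨x, hx, hx', hm⟩ := h5 u hu
  have e1 : IsLeast ((fun x => ⟪u, x⟫) '' K) ⟪u, x⟫ := ⟨⟨x, hx, rfl⟩, by
    rintro _ ⟨y, hy, rfl⟩; exact hm y hy⟩
  have e2 : IsGreatest ((fun x => ⟪u, x⟫) '' K) (⟪u, x⟫ + 1) := ⟨⟨x + u, hx', by
    simp [inner_add_right, hu]⟩, by
    rintro _ ⟨y, hy, rfl⟩
    have := real_inner_le_norm u (y - x)
    rw [inner_sub_right, hu] at this
    linarith [h4 y hy x hx]⟩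
  rw [e1.csInf_eq, e2.csSup_eq]
  ring

theorem quad {d : ℕ} (m s t : E d) (h : ‖s + t‖ = 1) (h' : ‖s - t‖ = 1) (a : ‖m + s‖ ≤ 1)
    (b : ‖m - s‖ ≤ 1) (c : ‖m + t‖ ≤ 1) (e : ‖m - t‖ ≤ 1) :
    ‖m‖ ^ 2 ≤ 1 / 2 ∧ (d = 2 → ‖m‖ ^ 2 ≤ 1 / 4) := by
  have a' := pow_le_one₀ (n := 2) (norm_nonneg _) a
  have b' := pow_le_one₀ (n := 2) (norm_nonneg _) b
  have c' := pow_le_one₀ (n := 2) (norm_nonneg _) c
  have e' := pow_le_one₀ (n := 2) (norm_nonneg _) e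
  have f1 : ‖s + t‖ ^ 2 = 1 := by rw [h]; norm_num
  have f2 : ‖s - t‖ ^ 2 = 1 := by rw [h']; norm_num
  rw [norm_add_sq_real] at a' c' f1
  rw [norm_sub_sq_real] at b' e' f2
  refine ⟨by linarith, ?_⟩
  rintro rfl
  have o : ⟪s, t⟫ = 0 := by linarith
  have P : ⟪m, s⟫ ^ 2 * ‖t‖ ^ 2 + ⟪m, t⟫ ^ 2 * ‖s‖ ^ 2 = ‖m‖ ^ 2 * ‖s‖ ^ 2 * ‖t‖ ^ 2 := by
    simp only [← real_inner_self_eq_norm_sq] at *
    simp only [PiLp.inner_apply, Fin.sum_univ_two, RCLike.inner_apply, conj_trivial] at o ⊢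
    linear_combination (2 * (s 0 * m 0 + s 1 * m 1) * (t 0 * m 0 + t 1 * m 1) -
      (m 0 ^ 2 + m 1 ^ 2) * (t 0 * s 0 + t 1 * s 1)) * o
  by_contra hR
  push Not at hR
  have x1 : ‖m‖ ^ 2 + 2 * |⟪m, s⟫| ≤ ‖t‖ ^ 2 := by cases abs_cases ⟪m, s⟫ <;> linarith
  have y1 : ‖m‖ ^ 2 + 2 * |⟪m, t⟫| ≤ ‖s‖ ^ 2 := by cases abs_cases ⟪m, t⟫ <;> linarith
  rw [← sq_abs ⟪m, s⟫, ← sq_abs ⟪m, t⟫] at P
  have x0 := abs_nonneg ⟪m, s⟫
  have y0 := abs_nonneg ⟪m, t⟫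
  have st : ‖s‖ ^ 2 + ‖t‖ ^ 2 = 1 := by linarith
  generalize |⟪m, s⟫| = x at *
  generalize |⟪m, t⟫| = y at *
  generalize ‖m‖ ^ 2 = R at *
  generalize ‖s‖ ^ 2 = S at *
  generalize ‖t‖ ^ 2 = T at *
  have q1 : x ^ 2 + y ^ 2 < 1 / 16 := by nlinarith [mul_nonneg x0 y0]
  have q2 : 3 / 16 < S * T := by nlinarith
  have q3 : x ^ 2 * T + y ^ 2 * S ≤ (x ^ 2 + y ^ 2) * (3 / 4) := by
    nlinarith [sq_nonneg x, sq_nonneg y]
  nlinarith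

theorem upper {d : ℕ} {K : Set (E d)} (h : CW K) : ∀ p ∈ Mid K, ∀ q ∈ Mid K,
    dist p q ^ 2 ≤ 1 / 2 ∧ (d = 2 → dist p q ^ 2 ≤ 1 / 4) := by
  rintro _ ⟨a, ha, b, hb, e1, rfl⟩ _ ⟨c, hc, e, he, e2, rfl⟩
  rw [dist_eq_norm]
  refine quad _ ((1 / 2 : ℝ) • (a - b + (c - e))) ((1 / 2 : ℝ) • (a - b - (c - e)))
    (Eq.trans (congrArg _ (by module)) e1) (Eq.trans (congrArg _ (by module)) e2) ?_ ?_ ?_ ?_
  · convert diam_le h a ha e he using 2; module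
  · convert diam_le h b hb c hc using 2; module
  · convert diam_le h a ha c hc using 2; module
  · convert diam_le h b hb e he using 2; module

theorem bdd {d : ℕ} {K : Set (E d)} (h : CW K) : Bornology.IsBounded (Mid K) :=
  h.1.isBounded.subset (by
    rintro _ ⟨a, ha, b, hb, -, rfl⟩
    rw [smul_add]
    exact h.2.1 ha hb (by norm_num) (by norm_num) (by norm_num))

theorem att {d : ℕ} (a b c e : E d) (v : ℝ) (h1 : ‖a - b‖ = 1) (h2 : ‖c - e‖ = 1)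
    (hS : ∀ x ∈ ({a, b, c, e} : Set (E d)), ∀ y ∈ ({a, b, c, e} : Set (E d)), ‖x - y‖ ≤ 1)
    (hv : v ≤ dist ((1 / 2 : ℝ) • (a + b)) ((1 / 2 : ℝ) • (c + e)))
    (hu : ∀ K : Set (E d), CW K → Metric.diam (Mid K) ≤ v) :
    IsGreatest {r | ∃ K : Set (E d), CW K ∧ r = Metric.diam (Mid K)} v := by
  obtain ⟨K, hK, h⟩ := exists_cw _ ⟨a, by simp⟩ hS
  refine ⟨⟨K, h, le_antisymm (hv.trans (Metric.dist_le_diam_of_mem (bdd h)
    ⟨a, hK (by simp), b, hK (by simp), h1, rfl⟩ ⟨c, hK (by simp), e, hK (by simp), h2, rfl⟩))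
    (hu K h)⟩, ?_⟩
  rintro _ ⟨L, hL, rfl⟩
  exact hu L hL

theorem nrm {d : ℕ} (x : E (d + 3)) (h : ∀ i : Fin d, x i.succ.succ.succ = 0) :
    ‖x‖ ^ 2 = x 0 ^ 2 + x 1 ^ 2 + x 2 ^ 2 := by
  rw [EuclideanSpace.norm_sq_eq, Fin.sum_univ_succ, Fin.sum_univ_succ, Fin.sum_univ_succ]
  simp [h, add_assoc]

theorem result (d : ℕ) (hd : 2 ≤ d) :
    IsGreatest {r | ∃ K : Set (E d), CW K ∧ r = Metric.diam (Mid K)}
      (if d = 2 then 1 / 2 else 1 / Real.sqrt 2) := by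
  have one : ∀ {n : ℕ} (x : E n), ‖x‖ ^ 2 = 1 → ‖x‖ = 1 := fun x h =>
    (pow_eq_one_iff_of_nonneg (norm_nonneg _) two_ne_zero).1 h
  split_ifs with h2
  · subst h2
    have s3 : Real.sqrt 3 ^ 2 = 3 := Real.sq_sqrt (by norm_num)
    have n2 : ∀ x : E 2, ‖x‖ ^ 2 = x 0 ^ 2 + x 1 ^ 2 := fun x => by
      simp [EuclideanSpace.norm_sq_eq, Fin.sum_univ_two]
    let b : E 2 := !₂[1, 0]
    let c : E 2 := !₂[1 / 2, Real.sqrt 3 / 2]
    have k1 : ‖0 - b‖ = 1 := one _ (by rw [n2]; simp [b])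
    have k2 : ‖0 - c‖ = 1 := one _ (by rw [n2]; simp [c]; linarith)
    have k3 : ‖b - c‖ = 1 := one _ (by rw [n2]; simp [b, c]; linarith)
    refine att 0 b 0 c _ k1 k2 ?_ ?_ fun K hK => Metric.diam_le_of_forall_dist_le (by norm_num)
      fun p hp q hq => ?_
    · rintro x (rfl | rfl | rfl | rfl) y (rfl | rfl | rfl | rfl) <;>
        first | exact (sub_self x ▸ by simp) | simp only [k1, k2, k3, le_refl] |
          (rw [norm_sub_rev]; simp only [k1, k2, k3, le_refl]) | simp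
    · rw [dist_eq_norm, ← smul_sub, norm_smul, zero_add, zero_add, k3]
      norm_num
    · nlinarith [(upper hK p hp q hq).2 rfl]
  · obtain ⟨n, rfl⟩ : ∃ n, d = n + 3 := ⟨d - 3, by omega⟩
    have s2 : Real.sqrt 2 ^ 2 = 2 := Real.sq_sqrt (by norm_num)
    have p2 : 0 < Real.sqrt 2 := by positivity
    have i2 : (1 / Real.sqrt 2) ^ 2 = 1 / 2 := by rw [div_pow, s2]; norm_num
    let v : ℝ → ℝ → ℝ → E (n + 3) := fun x y z => WithLp.toLp 2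
      (Fin.cons (x * (Real.sqrt 2 / 4)) (Fin.cons (y * (Real.sqrt 2 / 4))
        (Fin.cons (z * (Real.sqrt 2 / 4)) 0)))
    have nv : ∀ x y z x' y' z', ‖v x y z - v x' y' z'‖ ^ 2 =
        ((x - x') ^ 2 + (y - y') ^ 2 + (z - z') ^ 2) / 8 := by
      intro x y z x' y' z'
      rw [nrm _ fun i => by simp [v]]
      have a0 : ∀ x y z, v x y z 0 = x * (Real.sqrt 2 / 4) := fun _ _ _ => rfl
      have a1 : ∀ x y z, v x y z 1 = y * (Real.sqrt 2 / 4) := fun _ _ _ => rfl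
      have a2 : ∀ x y z, v x y z 2 = z * (Real.sqrt 2 / 4) := fun _ _ _ => rfl
      simp only [PiLp.sub_apply, a0, a1, a2]
      linear_combination ((x - x') ^ 2 + (y - y') ^ 2 + (z - z') ^ 2) / 16 * s2
    have lin : ∀ x y z x' y' z', (1 / 2 : ℝ) • (v x y z + v x' y' z') =
        v ((x + x') / 2) ((y + y') / 2) ((z + z') / 2) := by
      intro x y z x' y' z'
      ext i
      refine Fin.cases ?_ (fun i => Fin.cases ?_ (fun i => Fin.cases ?_ (fun i => ?_) i) i) i <;>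
        simp only [v, PiLp.smul_apply, PiLp.add_apply, Fin.cons_zero, Fin.cons_succ, smul_eq_mul,
          Pi.zero_apply] <;> ring
    refine att (v 1 1 1) (v 1 (-1) (-1)) (v (-1) 1 (-1)) (v (-1) (-1) 1) _
      (one _ (by rw [nv]; norm_num)) (one _ (by rw [nv]; norm_num)) ?_ ?_
      fun K hK => Metric.diam_le_of_forall_dist_le (by positivity) fun p hp q hq => ?_
    · rintro x (rfl | rfl | rfl | rfl) y (rfl | rfl | rfl | rfl) <;>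
        exact (pow_le_one_iff_of_nonneg (norm_nonneg _) two_ne_zero).1 (by rw [nv]; norm_num)
    · rw [lin, lin, dist_eq_norm]
      refine (pow_le_pow_iff_left₀ (by positivity) (norm_nonneg _) two_ne_zero).1 ?_
      rw [nv, i2]; norm_num
    · exact (pow_le_pow_iff_left₀ dist_nonneg (by positivity) two_ne_zero).1
        (i2 ▸ (upper hK p hp q hq).1)

end Pool.Agent.Results.MP_04ec84_gt.Value
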